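import Pool.Agent.Helper40.ZW.Fin
import Pool.Agent.Helper40.ZU.All
import Pool.Agent.Helper47.ZU.MIS
import Pool.Agent.Helper53.ZU.SFI
import Pool.Agent.Helper73.ZU.SSQ
import Pool.Agent.Helper74.ZU.SMO

/-!
The theorem on limit measures: all modules put together.
-/

open MeasureTheory

namespace Pool.Agent.Helper40.ZW

open Pool.Agent.Helper40.ZU
open Pool.Agent.Helper40.ZWP (Tower Structured Mixture Limit Strong)
open Pool.Agent.Helper40.DZP (Vanish)

theorem w_MIS : ST_MIS := Pool.Agent.Helper47.ZU.st_MIS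

theorem w_SFI : ST_SFI := Pool.Agent.Helper53.ZU.st_SFI w_MIS u_MMX

theorem w_SSQ : ST_SSQ := Pool.Agent.Helper73.ZU.st_SSQ u_VLM w_MIS

theorem w_SMO : ST_SMO := Pool.Agent.Helper74.ZU.st_SMO w_SSQ w_SFI

/-- part 1 -/
theorem all_one (X : Type) [MetricSpace X] [CompactSpace X] [MeasurableSpace X] [BorelSpace X]
    (T : X → X) (F : X → ℂ) (x : X) (hT : Measurable T) (hF : Measurable F)
    (hB : ∃ C : ℝ, ∀ z, ‖F z‖ ≤ C) (h : ∀ m : Measure X, Limit T x m →
      (∀ᵐ z ∂m, ContinuousAt T z ∧ ContinuousAt F z) ∧ Mixture T m) : Vanish T F x :=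
  fin_one u_VLM u_VAV u_TGE u_MFA u_MMX X T F x hT hF hB h

/-- part 2 -/
theorem all_two (X : Type) [MetricSpace X] [CompactSpace X] [MeasurableSpace X] [BorelSpace X]
    (T : C(X, X)) (hc : {m : Measure X | IsProbabilityMeasure m ∧ Ergodic T m}.Countable)
    (hs : ∀ m : Measure X, IsProbabilityMeasure m → Ergodic T m → Structured T m)
    (F : C(X, ℂ)) : Strong T F :=
  fin_two w_SMO u_SGA u_TGE u_MFA X T hc hs F

end Pool.Agent.Helper40.ZW
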