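import Pool.Agent.Helper40.ZW.Pub
import Pool.Agent.Helper40.ZQ.Fin
import Pool.Agent.Helper40.ZU.Stmts3

/-!
From the statements of the sheet ZU to the hand-in on limit measures.
-/

open Finset Filter MeasureTheory Topology
open scoped ComplexConjugate

namespace Pool.Agent.Helper40.ZW

open Pool.Agent.Helper98.ZA (pr)
open Pool.Agent.Helper98.ZB (Tw Ev Cl)
open Pool.Agent.Helper16.AZ (E Op)
open Pool.Agent.Helper16.MD (MS)
open Pool.Agent.Helper40.ZU
open Pool.Agent.Helper40.ZQ (mo mo_unitary mo_apply mo_sum mo_meas)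
open Pool.Agent.Helper40.ZWP (Tower Structured Mixture Limit Strong)
open Pool.Agent.Helper40.DZP (Vanish)
open ProbabilityTheory (cond)

/-- `w / (1 + |w|)` -/
noncomputable def sq {d : ℕ} (w : E d) : E d := ((1 + ‖w‖)⁻¹ : ℝ) • w

theorem sq_le {d : ℕ} (w : E d) : ‖sq w‖ ≤ 1 := by
  have h1 : 0 < 1 + ‖w‖ := by positivity
  rw [sq, norm_smul, Real.norm_eq_abs, abs_of_pos (inv_pos.2 h1), inv_mul_le_iff₀ h1]
  linarith [norm_nonneg w]

theorem sq_norm {d : ℕ} (w : E d) : ‖sq w‖ = ‖w‖ / (1 + ‖w‖) := by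
  have h1 : 0 < 1 + ‖w‖ := by positivity
  rw [sq, norm_smul, Real.norm_eq_abs, abs_of_pos (inv_pos.2 h1), inv_mul_eq_div]

theorem sq_inj {d : ℕ} : Function.Injective (sq (d := d)) := by
  intro w w' h
  have h1 : 0 < 1 + ‖w‖ := by positivity
  have h2 : 0 < 1 + ‖w'‖ := by positivity
  have h3 : ‖w‖ = ‖w'‖ := by
    have := congrArg norm h
    rw [sq_norm, sq_norm, div_eq_div_iff h1.ne' h2.ne'] at this
    linarith
  rw [sq, sq, h3] at h
  exact smul_right_injective _ (inv_ne_zero h2.ne') h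

theorem sq_meas {d : ℕ} : Measurable (sq (d := d)) := by
  have : Continuous (sq (d := d)) := by
    refine Continuous.smul (Continuous.inv₀ (continuous_const.add continuous_norm) fun w => ?_)
      continuous_id
    have h1 : 0 < 1 + ‖w‖ := by positivity
    exact h1.ne'
  exact this.measurable

theorem cl_of {Y : Type} [MeasurableSpace Y] [StandardBorelSpace Y] {ν : Measure Y}
    [IsProbabilityMeasure ν] {S : Y → Y} (h : Tower S ν) :
    MeasurePreserving S ν ν ∧
    ∃ (u : ℕ → Y → ℂ) (k d : ℕ → ℕ) (φ : ∀ j, (Fin (k j) → ℂ) → Op (d j)) (e : ∀ j, Y → E (d j)),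
      Cl ν S u k d φ e ∧ Eb ν S u := by
  obtain ⟨hmp, u, f, d, m, v, P, hu, hf, huS, hv, hP, hPu, hvS, ⟨A, hA, hA0, hinj⟩, hEb⟩ := h
  refine ⟨hmp, ?_⟩
  let w : ∀ j, Y → E (d j) := fun j y => WithLp.toLp 2 (v j y)
  have hwm : ∀ j, Measurable (w j) := fun j => (WithLp.measurable_toLp 2 _).comp (hv j)
  have hw : ∀ j, ∀ᵐ y ∂ν, w j (S y) = mo (P j (pr u (m j) y)) (w j y) := by
    intro j
    filter_upwards [hvS j] with y hy
    show WithLp.toLp 2 (v j (S y)) = _
    rw [hy]
    exact (mo_apply _ _).symm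
  let e : ∀ j, Y → E (d j) := fun j y => sq (w j y)
  have hem : ∀ j, Measurable (e j) := fun j => sq_meas.comp (hwm j)
  refine ⟨u, m, d, fun j z => mo (P j z), e, ⟨⟨fun k => (hu k).1, fun k => (hu k).2, fun k =>
    ⟨f k, hf k, ?_⟩⟩, fun j => ⟨fun z => mo_unitary (hPu j z), mo_meas (hP j), hem j,
    fun y => sq_le _, ?_⟩, fun s hs => ?_⟩, hEb⟩
  · filter_upwards [huS k] with y hy
    rw [hy, mul_comm]
  · filter_upwards [hw j] with y h1
    show sq (w j (S y)) = mo (P j (pr u (m j) y)) (sq (w j y))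
    have h2 : ‖mo (P j (pr u (m j) y)) (w j y)‖ = ‖w j y‖ :=
      Unitary.norm_map ⟨_, mo_unitary (hPu j _)⟩ _
    rw [h1, sq, sq, h2]
    exact (ContinuousLinearMap.map_smul_of_tower _ _ _).symm
  · have hst : StandardBorelSpace A := hA.standardBorel
    let U : Y → (ℕ → ℂ) × (∀ j, E (d j)) := fun y => (fun k => u k y, fun j => e j y)
    have hUm : ∀ M : MeasurableSpace Y, (∀ k, Measurable[M] (u k)) → (∀ j, Measurable[M] (e j)) →
        Measurable[M] U := fun M h1 h2 =>
      @Measurable.prodMk Y M (ℕ → ℂ) (∀ j, E (d j)) _ _ (fun y k => u k y) (fun y j => e j y)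
        (@measurable_pi_lambda Y ℕ (fun _ => ℂ) M _ _ h1)
        (@measurable_pi_lambda Y ℕ (fun j => E (d j)) M _ _ h2)
    have hU : Measurable (fun y : A => U y.1) :=
      (hUm _ (fun k => (hu k).1) hem).comp measurable_subtype_coe
    have hUi : Function.Injective (fun y : A => U y.1) := by
      intro y y' hyy
      refine Subtype.ext (hinj y.1 y.2 y'.1 y'.2 (fun k => congrFun (congrArg Prod.fst hyy) k)
        fun j => ?_)
      have h1 : e j y.1 = e j y'.1 := congrFun (congrArg Prod.snd hyy) j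
      exact (WithLp.toLp_injective 2) (sq_inj h1)
    have hEm : MeasurableEmbedding (fun y : A => U y.1) := hU.measurableEmbedding hUi
    have hW : MeasurableSet ((fun y : A => U y.1) '' (Subtype.val ⁻¹' s)) :=
      hEm.measurableSet_image.2 (measurable_subtype_coe hs)
    have hsup : Measurable[(⨆ k, MeasurableSpace.comap (u k) inferInstance) ⊔
        (⨆ j, MeasurableSpace.comap (e j) inferInstance)] U :=
      hUm _ (fun k => (comap_measurable (u k)).mono ((le_iSup (fun k =>
        MeasurableSpace.comap (u k) (inferInstance : MeasurableSpace ℂ)) k).trans le_sup_left) le_rfl)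
        (fun j => (comap_measurable (e j)).mono ((le_iSup (fun j =>
        MeasurableSpace.comap (e j) (inferInstance : MeasurableSpace (E (d j)))) j).trans
          le_sup_right) le_rfl)
    refine ⟨U ⁻¹' ((fun y : A => U y.1) '' (Subtype.val ⁻¹' s)), hsup hW, ?_⟩
    have hae : ∀ᵐ y ∂ν, y ∈ A := by
      rw [ae_iff]
      exact hA0
    refine eventuallyEq_set.2 ?_
    filter_upwards [hae] with y hy
    constructor
    · intro hys
      exact ⟨⟨y, hy⟩, hys, rfl⟩
    · rintro ⟨y', hy', he⟩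
      have : y' = ⟨y, hy⟩ := hUi he
      rw [this] at hy'
      exact hy'

theorem tower_ge (hGE : ST_TGE) {X : Type} [MeasurableSpace X] [StandardBorelSpace X]
    {m : Measure X} [IsProbabilityMeasure m] {T : X → X} (h : Tower T m) : Ge m T := by
  obtain ⟨h1, u, k, d, φ, e, h2, h3⟩ := cl_of h
  exact hGE X m T u k d φ e h1 h2 h3

theorem structured_ge (hGE : ST_TGE) (hFA : ST_MFA) {X : Type} [MeasurableSpace X]
    [StandardBorelSpace X] {m : Measure X} [IsProbabilityMeasure m] {T : X → X}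
    (hT : MeasurePreserving T m m) (h : Structured T m) : Ge m T := by
  rcases h with h | ⟨⟨T', hT', hTT⟩, Ω, _, _, ρ, R, θ, hρ, hR, hθ, hm, hθR⟩
  · exact tower_ge hGE h
  · exact hFA X Ω m ρ T T' R θ hT hT' hTT hR.1 hθ hm hθR (tower_ge hGE hR)

theorem mixture_ge (hGE : ST_TGE) (hFA : ST_MFA) (hMX : ST_MMX) {X : Type} [MeasurableSpace X]
    [StandardBorelSpace X] {m : Measure X} [IsProbabilityMeasure m] {T : X → X}
    (hT : MeasurePreserving T m m) (h : Mixture T m) : Ge m T := by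
  obtain ⟨B, hB, hBd, hB0, hBS⟩ := h
  let B' : ℕ → Set X := fun i => {x | m (B i) ≠ 0} ∩ B i
  have hB' : ∀ i, m (B i) ≠ 0 → B' i = B i := fun i hi => by
    ext x
    exact ⟨fun h => h.2, fun h => ⟨hi, h⟩⟩
  have hB0' : ∀ i, m (B i) = 0 → B' i = ∅ := fun i hi => by
    ext x
    exact ⟨fun h => absurd hi h.1, fun h => h.elim⟩
  refine hMX X m T B' hT (fun i => ?_) (fun i j hij => ?_) (fun i => ?_) ?_ fun i hi => ?_
  · by_cases hi : m (B i) = 0
    · rw [hB0' i hi]
      exact MeasurableSet.empty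
    · rw [hB' i hi]
      exact hB i
  · exact (hBd hij).mono Set.inter_subset_right Set.inter_subset_right
  · by_cases hi : m (B i) = 0
    · rw [hB0' i hi, Set.preimage_empty]
    · rw [hB' i hi]
      exact (hBS i hi).1
  · have h1 : (⋃ i, B' i)ᶜ ⊆ (⋃ i, B i)ᶜ ∪ ⋃ i ∈ {i | m (B i) = 0}, B i := by
      intro x hx
      by_cases hx' : x ∈ ⋃ i, B i
      · obtain ⟨i, hi⟩ := Set.mem_iUnion.1 hx'
        refine Or.inr (Set.mem_iUnion₂.2 ⟨i, ?_, hi⟩)
        by_contra h2
        exact hx (Set.mem_iUnion.2 ⟨i, h2, hi⟩)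
      · exact Or.inl hx'
    refine measure_mono_null h1 (measure_union_null hB0 ?_)
    exact (measure_biUnion_null_iff (Set.to_countable _)).2 fun i hi => hi
  · by_cases hi' : m (B i) = 0
    · rw [hB0' i hi', measure_empty] at hi
      exact absurd rfl hi
    · rw [hB' i hi']
      have h1 : IsProbabilityMeasure (cond m (B i)) :=
        ProbabilityTheory.cond_isProbabilityMeasure hi'
      obtain ⟨h2, h3⟩ := hBS i hi'
      refine structured_ge hGE hFA ?_ h3
      refine ⟨hT.measurable, ?_⟩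
      have h4 := Measure.restrict_map (μ := m) hT.measurable (hB i)
      rw [hT.map_eq, Measure.restrict_congr_set h2] at h4
      rw [ProbabilityTheory.cond, Measure.map_smul, ← h4]

/-- part 1 -/
theorem fin_one (hLM : ST_VLM) (hAV : ST_VAV) (hGE : ST_TGE) (hFA : ST_MFA) (hMX : ST_MMX)
    (X : Type) [MetricSpace X] [CompactSpace X] [MeasurableSpace X] [BorelSpace X] (T : X → X)
    (F : X → ℂ) (x : X) (hT : Measurable T) (hF : Measurable F) (hB : ∃ C : ℝ, ∀ z, ‖F z‖ ≤ C)
    (h : ∀ m : Measure X, Limit T x m →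
      (∀ᵐ z ∂m, ContinuousAt T z ∧ ContinuousAt F z) ∧ Mixture T m) : Vanish T F x := by
  refine hLM X T x F hT hF hB fun j m hj hm hlim => ?_
  obtain ⟨h1, h2⟩ := h m ⟨hm, j, hj, hlim⟩
  have hTc : ∀ᵐ z ∂m, ContinuousAt T z := by filter_upwards [h1] with z hz using hz.1
  have hTm : MeasurePreserving T m m := by
    refine (hAV X (Filter.map j atTop) T x m ⟨inferInstance, hj.tendsto_atTop, hm, hT, hTc,
      fun G => ?_⟩).1
    rw [tendsto_map'_iff]
    exact hlim G
  exact ⟨hTc, by filter_upwards [h1] with z hz using hz.2, mixture_ge hGE hFA hMX hTm h2⟩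

/-- part 2 -/
theorem fin_two (hSM : ST_SMO) (hGA : ST_SGA) (hGE : ST_TGE) (hFA : ST_MFA)
    (X : Type) [MetricSpace X] [CompactSpace X] [MeasurableSpace X] [BorelSpace X] (T : C(X, X))
    (hc : {m : Measure X | IsProbabilityMeasure m ∧ Ergodic T m}.Countable)
    (hs : ∀ m : Measure X, IsProbabilityMeasure m → Ergodic T m → Structured T m)
    (F : C(X, ℂ)) : Strong T F :=
  hSM X T F T.continuous (hGA X T T.continuous.measurable hc fun m h1 h2 =>
    structured_ge hGE hFA h2.toMeasurePreserving (hs m h1 h2))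

end Pool.Agent.Helper40.ZW
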