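import Mathlib

/-!
Definitions used in the statements on orbits whose limit measures are countable mixtures of
isometric extensions of iterated abelian extensions.
-/

open MeasureTheory Filter Topology

namespace Pool.Agent.Helper40.ZWP

section

variable {X : Type} [MeasurableSpace X]

/-- `m` is invariant under `T`, and there are measurable functions `u k` of modulus one and
measurable vector functions `v j` on `X` which together separate the points of a set of full
measure. For almost all `x` the quotient of `u k (T x)` and `u k x` is a measurable function `f k`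
of the values `u i x` with `i < k`, and `v j (T x)` is the image of `v j x` under a unitary matrix
`P j` which is a measurable function of the values `u i x` with `i < n j`. The invariant sets which
are given by the functions `u k` have measure `0` or `1`. (The measure `m` need not be ergodic.) -/
def Tower (T : X → X) (m : Measure X) : Prop :=
  MeasurePreserving T m m ∧
  ∃ (u : ℕ → X → ℂ) (f : ∀ k : ℕ, (Fin k → ℂ) → ℂ) (d n : ℕ → ℕ)
    (v : ∀ j : ℕ, X → Fin (d j) → ℂ)
    (P : ∀ j : ℕ, (Fin (n j) → ℂ) → Matrix (Fin (d j)) (Fin (d j)) ℂ),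
    (∀ k, Measurable (u k) ∧ ∀ x, ‖u k x‖ = 1) ∧ (∀ k, Measurable (f k)) ∧
    (∀ k, ∀ᵐ x ∂m, u k (T x) = f k (fun i => u i x) * u k x) ∧
    (∀ j, Measurable (v j)) ∧ (∀ j a b, Measurable fun z => P j z a b) ∧
    (∀ j z, P j z ∈ Matrix.unitaryGroup (Fin (d j)) ℂ) ∧
    (∀ j, ∀ᵐ x ∂m, v j (T x) = (P j fun i => u i x).mulVec (v j x)) ∧
    (∃ A : Set X, MeasurableSet A ∧ m Aᶜ = 0 ∧ ∀ x ∈ A, ∀ x' ∈ A,
      (∀ k, u k x = u k x') → (∀ j, v j x = v j x') → x = x') ∧
    ∀ s : Set X, MeasurableSet[⨆ k, MeasurableSpace.comap (u k) inferInstance] s →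
      T ⁻¹' s =ᵐ[m] s → m s = 0 ∨ m s = 1

/-- `(X, m, T)` is a tower, or `T` is injective almost everywhere and `(X, m, T)` is a factor of a
tower `(Ω, ρ, R)` -/
def Structured (T : X → X) (m : Measure X) : Prop :=
  Tower T m ∨
  ((∃ T' : X → X, Measurable T' ∧ ∀ᵐ x ∂m, T' (T x) = x) ∧
    ∃ (Ω : Type) (_ : MeasurableSpace Ω) (_ : StandardBorelSpace Ω) (ρ : Measure Ω) (R : Ω → Ω)
      (θ : Ω → X), IsProbabilityMeasure ρ ∧ Tower R ρ ∧ Measurable θ ∧ ρ.map θ = m ∧
        ∀ᵐ w ∂ρ, θ (R w) = T (θ w))

/-- up to a null set `X` is the union of countably many disjoint invariant sets, and the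
restrictions of `m` to these sets are structured -/
def Mixture (T : X → X) (m : Measure X) : Prop :=
  ∃ B : ℕ → Set X, (∀ i, MeasurableSet (B i)) ∧ Pairwise (fun i j => Disjoint (B i) (B j)) ∧
    m (⋃ i, B i)ᶜ = 0 ∧ ∀ i, m (B i) ≠ 0 →
      T ⁻¹' B i =ᵐ[m] B i ∧ Structured T (ProbabilityTheory.cond m (B i))

end

/-- the probability measure `m` is the limit of the empirical measures of the orbit of `x` for the
lengths `j 0 < j 1 < ...` -/
def Limit {X : Type} [TopologicalSpace X] [MeasurableSpace X] (T : X → X) (x : X)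
    (m : Measure X) : Prop :=
  IsProbabilityMeasure m ∧ ∃ j : ℕ → ℕ, StrictMono j ∧ ∀ G : C(X, ℝ),
    Tendsto (fun k : ℕ => (∑ n ∈ Finset.Icc 1 (j k), G (T^[n] x)) / (j k : ℝ)) atTop
      (𝓝 (∫ z, G z ∂m))

/-- strong form of the orthogonality of the Moebius function and the sequences `F (T^n x)`: the
point `x` may change at the times `b 0 < b 1 < ...` if the differences of these tend to infinity -/
def Strong {X : Type} (T : X → X) (F : X → ℂ) : Prop :=
  ∀ (b : ℕ → ℕ) (x : ℕ → X), StrictMono b → Tendsto (fun k => b (k + 1) - b k) atTop atTop →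
    Tendsto (fun K : ℕ => (∑ k ∈ Finset.range K, ‖∑ n ∈ Finset.Ico (b k) (b (k + 1)),
      ((ArithmeticFunction.moebius n : ℤ) : ℂ) * F (T^[n - b k] (x k))‖) / (b K : ℝ)) atTop (𝓝 0)

end Pool.Agent.Helper40.ZWP
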